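import Pool.Agent.H88.BL.Main

/-!
# A local limit theorem at doubly exponentially small scales for every Bernoulli convolution
near one
-/

set_option autoImplicit false
open MeasureTheory ProbabilityTheory Filter Topology Set

namespace Pool.Agent.Results.MP_21f5c5_an.LocalLimit

/-- The law of the random series of all plus or minus a i, with independent fair signs. -/
noncomputable def signedLaw {ι : Type} (a : ι → ℝ) : Measure ℝ :=
  Measure.map (fun ω : ι → Bool => ∑' i, (if ω i then (1 : ℝ) else -1) * a i)
    (Measure.infinitePi (fun _ : ι => (PMF.uniformOfFintype Bool).toMeasure))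

/-- The Bernoulli convolution with parameter t. -/
noncomputable def bern (t : ℝ) : Measure ℝ := signedLaw (fun n : ℕ => t ^ n)

/-- For every parameter t near one: the Bernoulli convolution gives every interval of length
at most one mass at most 4 (1-t)^(1/2) times the length to the power 1 - exp(-1/(1300(1-t))), and
on all intervals of length at least exp(-exp(1/(1300(1-t)))) it agrees with the Gaussian law of
the same variance up to 1100 (1-t)^(3/2) times the length. -/
theorem result : ∃ t₀ : ℝ, t₀ < 1 ∧ ∀ t : ℝ, t₀ < t → t < 1 →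
    (∀ a b : ℝ, a < b → b ≤ a + 1 → bern t (Icc a b) ≤ ENNReal.ofReal
      (4 * √(1 - t) * (b - a) ^ (1 - Real.exp (-(1 / (1300 * (1 - t))))))) ∧
    (∀ a b : ℝ, Real.exp (-Real.exp (1 / (1300 * (1 - t)))) ≤ b - a →
      |(bern t).real (Icc a b)
          - (gaussianReal 0 (Real.toNNReal (1 / (1 - t ^ 2)))).real (Icc a b)|
        ≤ 1100 * (1 - t) ^ (3 / 2 : ℝ) * (b - a)) := by
  obtain ⟨t₁, h1, hF⟩ := Pool.Agent.H88.BL.fro
  obtain ⟨t₂, h2, hL⟩ := Pool.Agent.H88.BL.llt
  refine ⟨max t₁ t₂, max_lt h1 h2, fun t ht ht1 => ?_⟩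
  rw [max_lt_iff] at ht
  exact ⟨hF t ht.1 ht1, hL t ht.2 ht1⟩

end Pool.Agent.Results.MP_21f5c5_an.LocalLimit
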