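import Pool.Agent.H91.BC.Tv

/-!
# Bernoulli convolutions near one

If the set of parameters in (1/2, 1) with a Bernoulli convolution which is not absolutely
continuous is countable, then the normalised Bernoulli convolutions converge to the Gaussian law
in total variation as the parameter tends to one. This convergence is equivalent to absolute
continuity for all parameters near one, to the statement that the absolutely continuous parameters
are not meagre, to the pointwise statement that for every t in (0,1) some root of t is an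
absolutely continuous parameter, and to the non-meagreness for convolutions of any number of
scaled Bernoulli convolutions.
-/

set_option autoImplicit false
open MeasureTheory ProbabilityTheory Filter Topology Set

namespace Pool.Agent.Results.MP_21f5c5_an.NearOne

/-- The law of the random series of all plus or minus a i, with independent fair signs. -/
noncomputable def signedLaw {ι : Type} (a : ι → ℝ) : Measure ℝ :=
  Measure.map (fun ω : ι → Bool => ∑' i, (if ω i then (1 : ℝ) else -1) * a i)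
    (Measure.infinitePi (fun _ : ι => (PMF.uniformOfFintype Bool).toMeasure))

/-- The Bernoulli convolution with parameter t. -/
noncomputable def bern (t : ℝ) : Measure ℝ := signedLaw (fun n : ℕ => t ^ n)

/-- The law of the sum over j less than r and all n of plus or minus s j times m j to the n, all
signs independent: the convolution of the Bernoulli convolutions with parameters m j scaled by
the factors s j. -/
noncomputable def bernProd {r : ℕ} (m s : Fin r → ℝ) : Measure ℝ :=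
  signedLaw (fun x : Fin r × ℕ => s x.1 * m x.1 ^ x.2)

/-- The Bernoulli convolution scaled to variance one. -/
noncomputable def bernStd (t : ℝ) : Measure ℝ := (bern t).map (fun y => √(1 - t ^ 2) * y)

lemma ev_iff {Q : ℝ → Prop} : (∀ᶠ t in 𝓝[<] (1 : ℝ), Q t) ↔
    ∃ t₀ : ℝ, t₀ < 1 ∧ ∀ t : ℝ, t₀ < t → 0 < t → t < 1 → Q t := by
  rw [(nhdsLT_basis (1 : ℝ)).eventually_iff]
  constructor
  · rintro ⟨a, ha, h⟩
    exact ⟨a, ha, fun t h1 _ h3 => h ⟨h1, h3⟩⟩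
  · rintro ⟨a, ha, h⟩
    refine ⟨max a 0, max_lt ha one_pos, ?_⟩
    rintro t ⟨h1, h2⟩
    rw [max_lt_iff] at h1
    exact h t h1.1 h1.2 h2

theorem result :
    List.TFAE [
      ∀ᶠ t in 𝓝[<] (1 : ℝ), bern t ≪ volume,
      ¬ IsMeagre {t : ℝ | t ∈ Ioo (1 / 2 : ℝ) 1 ∧ bern t ≪ volume},
      ∀ t ∈ Ioo (0 : ℝ) 1, ∃ k : ℕ, 1 ≤ k ∧ bern (t ^ (1 / (k : ℝ))) ≪ volume,
      ¬ IsMeagre {t : ℝ | t ∈ Ioo (0 : ℝ) 1 ∧ ∃ q : ℚ, 0 < q ∧ bern (t ^ (q : ℝ)) ≪ volume},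
      ∃ r : ℕ, 1 ≤ r ∧ ¬ IsMeagre {p : (Fin r → ℝ) × (Fin r → ℝ) |
        (∀ j, 0 < p.1 j ∧ p.1 j < 1 ∧ 0 < p.2 j) ∧ bernProd p.1 p.2 ≪ volume},
      ∃ K c : ℝ, 0 < c ∧ ∀ᶠ t in 𝓝[<] (1 : ℝ), ∀ A : Set ℝ,
        bern t A ≤ ENNReal.ofReal K * volume A + ENNReal.ofReal (Real.exp (-c / (1 - t))),
      ∃ c : ℝ, c < 1 ∧ ∀ᶠ t in 𝓝[<] (1 : ℝ), ∀ A : Set ℝ, MeasurableSet A →
        (bernStd t).real A ≤ (gaussianReal 0 1).real A + c,
      ∀ ε : ℝ, 0 < ε → ∀ᶠ t in 𝓝[<] (1 : ℝ), ∀ A : Set ℝ, MeasurableSet A →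
        |(bernStd t).real A - (gaussianReal 0 1).real A| ≤ ε]
    ∧ (Set.Countable {t : ℝ | t ∈ Ioo (1 / 2 : ℝ) 1 ∧ ¬ bern t ≪ volume} →
        ∀ᶠ t in 𝓝[<] (1 : ℝ), bern t ≪ volume) := by
  have h1 : (∀ᶠ t in 𝓝[<] (1 : ℝ), bern t ≪ volume) ↔ H91.BC.P1 := ev_iff
  have h6 : (∃ K c : ℝ, 0 < c ∧ ∀ᶠ t in 𝓝[<] (1 : ℝ), ∀ A : Set ℝ,
      bern t A ≤ ENNReal.ofReal K * volume A + ENNReal.ofReal (Real.exp (-c / (1 - t))))
      ↔ H91.BC.P6 := by
    constructor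
    · rintro ⟨K, c, hc, h⟩
      obtain ⟨t₀, ht₀, h2⟩ := ev_iff.1 h
      exact ⟨t₀, c, K, ht₀, hc, h2⟩
    · rintro ⟨t₀, c, K, ht₀, hc, h⟩
      exact ⟨K, c, hc, ev_iff.2 ⟨t₀, ht₀, h⟩⟩
  have h8 : (∃ c : ℝ, c < 1 ∧ ∀ᶠ t in 𝓝[<] (1 : ℝ), ∀ A : Set ℝ, MeasurableSet A →
      (bernStd t).real A ≤ (gaussianReal 0 1).real A + c) ↔ H91.BC.P8 := by
    constructor
    · rintro ⟨c, hc, h⟩
      obtain ⟨t₀, ht₀, h2⟩ := ev_iff.1 h
      exact ⟨t₀, c, ht₀, hc, h2⟩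
    · rintro ⟨t₀, c, ht₀, hc, h⟩
      exact ⟨c, hc, ev_iff.2 ⟨t₀, ht₀, h⟩⟩
  have h7 : (∀ ε : ℝ, 0 < ε → ∀ᶠ t in 𝓝[<] (1 : ℝ), ∀ A : Set ℝ, MeasurableSet A →
      |(bernStd t).real A - (gaussianReal 0 1).real A| ≤ ε) ↔ H91.BC.P7 := by
    constructor
    · intro h ε hε
      exact ev_iff.1 (h ε hε)
    · intro h ε hε
      exact ev_iff.2 (h ε hε)
  refine ⟨?_, fun h => h1.2 (H91.BC.P1_of_countable h)⟩
  have hT := H91.BC.tfae
  tfae_have 1 ↔ 2 := h1.trans (hT.out 0 1)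
  tfae_have 1 ↔ 3 := h1.trans (hT.out 0 2)
  tfae_have 1 ↔ 4 := h1.trans (hT.out 0 3)
  tfae_have 1 ↔ 5 := h1.trans (hT.out 0 4)
  tfae_have 1 → 6 := fun h => h6.2 (H91.BC.P6_of_P1 (h1.1 h))
  tfae_have 6 → 1 := fun h => h1.2 (H91.BC.P1_of_P6 (h6.1 h))
  tfae_have 1 → 8 := fun h => h7.2 (H91.BC.P7_of_P1 (h1.1 h))
  tfae_have 8 → 7 := fun h => h8.2 (H91.BC.P8_of_P7 (h7.1 h))
  tfae_have 7 → 1 := fun h => h1.2 (H91.BC.P1_of_P8 (h8.1 h))
  tfae_finish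

end Pool.Agent.Results.MP_21f5c5_an.NearOne
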